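import Pool.Agent.H21.Cun.Final

/-!
# Cunningham chains in the random sieve model of Banks, Ford and Tao

In the random sieve model of Banks, Ford and Tao, almost surely: if the class removed modulo `2` is `0`
(so that the random set consists of odd numbers, like the odd primes), then for each of the two kinds the
longest Cunningham chain of elements of the random set up to `x` has length asymptotic to
`log x / log log x`; if the class removed modulo `2` is `1`, no chain has more than one term.
-/

set_option autoImplicit false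

open MeasureTheory ProbabilityTheory Filter Topology Finset
open Pool.Agent.H90.BFT Pool.Agent.H21.Cun

namespace Pool.Agent.Results.MP_c183ae_nt.BFTChains

/-- the model exists -/
theorem exists_model : ∃ (Ω : Type) (_ : MeasurableSpace Ω) (P : Measure Ω) (_ : IsProbabilityMeasure P)
    (a : ℕ → Ω → ℕ), Model P a := by
  classical
  have : ∀ p : Nat.Primes, NeZero (p : ℕ) := fun p => ⟨p.2.ne_zero⟩
  let ν : (p : Nat.Primes) → Measure (Fin (p : ℕ)) :=
    fun p => (PMF.uniformOfFintype (Fin (p : ℕ))).toMeasure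
  have : ∀ p : Nat.Primes, IsProbabilityMeasure (ν p) := fun p => by
    simp only [ν]; infer_instance
  let a : ℕ → ((p : Nat.Primes) → Fin (p : ℕ)) → ℕ := fun p ω =>
    if h : p.Prime then ((ω ⟨p, h⟩ : Fin p) : ℕ) else 0
  have ha : ∀ p (hp : p.Prime), a p = fun ω => ((ω ⟨p, hp⟩ : Fin p) : ℕ) := by
    intro p hp
    funext ω
    simp only [a]
    rw [dif_pos hp]
  refine ⟨(p : Nat.Primes) → Fin (p : ℕ), inferInstance, Measure.infinitePi ν, inferInstance, a, ?_⟩
  constructor
  · intro p hp
    rw [ha p hp]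
    have h1 : Measurable (fun ω : (p : Nat.Primes) → Fin (p : ℕ) => ω ⟨p, hp⟩) :=
      (measurePreserving_eval_infinitePi ν (⟨p, hp⟩ : Nat.Primes)).measurable
    exact (measurable_of_countable (fun x : Fin p => (x : ℕ))).comp h1
  · intro p hp ω
    rw [ha p hp]
    exact (ω ⟨p, hp⟩).2
  · intro p hp c hc
    have e : {ω | a p ω = c} = (fun ω : (p : Nat.Primes) → Fin (p : ℕ) => ω ⟨p, hp⟩) ⁻¹'
        {(⟨c, hc⟩ : Fin p)} := by
      ext ω
      rw [ha p hp]
      simp only [Set.mem_ofPred_eq, Set.mem_preimage, Set.mem_singleton_iff]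
      rw [Fin.ext_iff]
    have h1 : Measure.infinitePi ν ((fun ω : (p : Nat.Primes) → Fin (p : ℕ) => ω ⟨p, hp⟩) ⁻¹'
        {(⟨c, hc⟩ : Fin p)}) = ν ⟨p, hp⟩ {(⟨c, hc⟩ : Fin p)} :=
      (measurePreserving_eval_infinitePi ν ⟨p, hp⟩).measure_preimage
        (s := {(⟨c, hc⟩ : Fin p)}) (measurableSet_singleton _).nullMeasurableSet
    rw [e, h1]
    have : NeZero p := ⟨hp.ne_zero⟩
    simp only [ν]
    rw [PMF.toMeasure_apply_singleton _ _ (measurableSet_singleton _), PMF.uniformOfFintype_apply,
      Fintype.card_fin, one_div]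
  · have h1 := iIndepFun_infinitePi (P := ν) (X := fun (p : Nat.Primes) (x : Fin (p : ℕ)) => (x : ℕ))
      (fun p => measurable_of_countable _)
    convert h1 using 2 with p
    exact ha p p.2

/-- The random model exists; in it the class of the prime `2` is `0` with probability `1/2` and, almost
surely: if it is `0` then for both kinds (`e = 0`: `q (i + 1) = 2 * q i + 1`; `e = 2`:
`q (i + 1) = 2 * q i - 1`) there are chains of every length in the random set, and the length `L (x)` of
the longest chain in the random set up to `x` satisfies `L (x) log log x / log x → 1`; if it is `1` then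
no chain has more than one term. (The lengths admitted in the definition of `longest` are at most `x + 1`
and include `0`, so that it is a maximum.) -/
theorem result :
    (∃ (Ω : Type) (_ : MeasurableSpace Ω) (P : Measure Ω) (_ : IsProbabilityMeasure P)
      (a : ℕ → Ω → ℕ), Model P a) ∧
    (∀ (A : Set ℕ) (e x : ℕ), HasChain A e x (longest A e x) ∧
      ∀ l, HasChain A e x l → l ≤ longest A e x) ∧
    ∀ (Ω : Type) [MeasurableSpace Ω] (P : Measure Ω) [IsProbabilityMeasure P] (a : ℕ → Ω → ℕ),
      Model P a → P {ω | a 2 ω = 0} = 1 / 2 ∧ ∀ᵐ ω ∂P,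
        (a 2 ω = 0 → ∀ e : ℕ, e = 0 ∨ e = 2 →
          (∀ k : ℕ, ∃ x : ℕ, HasChain (RS fun p => a p ω) e x k) ∧
          Tendsto (fun x : ℕ => (longest (RS fun p => a p ω) e x : ℝ) * Real.log (Real.log x) /
            Real.log x) atTop (𝓝 1)) ∧
        (a 2 ω = 1 → ∀ e : ℕ, e = 0 ∨ e = 2 → ∀ x : ℕ, longest (RS fun p => a p ω) e x ≤ 1) := by
  refine ⟨exists_model, fun A e x => ⟨hasChain_longest A e x, fun l hl => le_longest hl⟩, ?_⟩
  intro Ω _ P _ a h
  refine ⟨?_, ?_⟩
  · have h1 := h.unif 2 Nat.prime_two 0 (by norm_num)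
    rw [h1]
    norm_num
  filter_upwards [ae_all_iff.mpr fun n => ae_low h 0 (Or.inl rfl) n,
    ae_all_iff.mpr fun n => ae_low h 2 (Or.inr rfl) n,
    ae_all_iff.mpr fun n => ae_up h 0 (by norm_num) n,
    ae_all_iff.mpr fun n => ae_up h 2 (by norm_num) n] with ω h1 h2 h3 h4
  refine ⟨fun hω e he => ?_, fun hω e he x => longest_le_one hω he x⟩
  have key : Tendsto (fun x : ℕ => (longest (RS fun p => a p ω) e x : ℝ) * Real.log (Real.log x) /
      Real.log x) atTop (𝓝 1) := by
    rcases he with rfl | rfl
    · exact tendsto_of_bounds _ 0 (fun n => h1 n hω) h3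
    · exact tendsto_of_bounds _ 2 (fun n => h2 n hω) h4
  exact ⟨exists_long _ e key, key⟩

end Pool.Agent.Results.MP_c183ae_nt.BFTChains
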