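import Pool.Agent.H21.BFT.Final

/-!
# Progressions of prime patterns in the random sieve model of Banks, Ford and Tao

In the random sieve model of Banks, Ford and Tao, almost surely, for every nonempty admissible pattern
`H`, the longest arithmetic progression of translates of `H` inside the random set up to `x` has length
asymptotic to `(2 / #H) log x / log log x`. For `H = {0, 2}` these are the progressions of twins.
-/

set_option autoImplicit false

open MeasureTheory ProbabilityTheory Filter Topology Finset
open Pool.Agent.H90.BFT Pool.Agent.H21.BFT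

namespace Pool.Agent.Results.MP_a1f59e_nt.BFTPatterns

/-- the model exists -/
theorem exists_model : ∃ (Ω : Type) (_ : MeasurableSpace Ω) (P : Measure Ω) (_ : IsProbabilityMeasure P)
    (a : ℕ → Ω → ℕ), Model P a := by
  classical
  have : ∀ p : Nat.Primes, NeZero (p : ℕ) := fun p => ⟨p.2.ne_zero⟩
  let ν : (p : Nat.Primes) → Measure (Fin (p : ℕ)) :=
    fun p => (PMF.uniformOfFintype (Fin (p : ℕ))).toMeasure
  have : ∀ p : Nat.Primes, IsProbabilityMeasure (ν p) := fun p => by
    simp only [ν]; infer_instance
  let a : ℕ → ((p : Nat.Primes) → Fin (p : ℕ)) → ℕ := fun p ω =>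
    if h : p.Prime then ((ω ⟨p, h⟩ : Fin p) : ℕ) else 0
  have ha : ∀ p (hp : p.Prime), a p = fun ω => ((ω ⟨p, hp⟩ : Fin p) : ℕ) := by
    intro p hp
    funext ω
    simp only [a]
    rw [dif_pos hp]
  refine ⟨(p : Nat.Primes) → Fin (p : ℕ), inferInstance, Measure.infinitePi ν, inferInstance, a, ?_⟩
  constructor
  · intro p hp
    rw [ha p hp]
    have h1 : Measurable (fun ω : (p : Nat.Primes) → Fin (p : ℕ) => ω ⟨p, hp⟩) :=
      (measurePreserving_eval_infinitePi ν (⟨p, hp⟩ : Nat.Primes)).measurable
    exact (measurable_of_countable (fun x : Fin p => (x : ℕ))).comp h1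
  · intro p hp ω
    rw [ha p hp]
    exact (ω ⟨p, hp⟩).2
  · intro p hp c hc
    have e : {ω | a p ω = c} = (fun ω : (p : Nat.Primes) → Fin (p : ℕ) => ω ⟨p, hp⟩) ⁻¹'
        {(⟨c, hc⟩ : Fin p)} := by
      ext ω
      rw [ha p hp]
      simp only [Set.mem_ofPred_eq, Set.mem_preimage, Set.mem_singleton_iff]
      rw [Fin.ext_iff]
    have h1 : Measure.infinitePi ν ((fun ω : (p : Nat.Primes) → Fin (p : ℕ) => ω ⟨p, hp⟩) ⁻¹'
        {(⟨c, hc⟩ : Fin p)}) = ν ⟨p, hp⟩ {(⟨c, hc⟩ : Fin p)} :=
      (measurePreserving_eval_infinitePi ν ⟨p, hp⟩).measure_preimage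
        (s := {(⟨c, hc⟩ : Fin p)}) (measurableSet_singleton _).nullMeasurableSet
    rw [e, h1]
    have : NeZero p := ⟨hp.ne_zero⟩
    simp only [ν]
    rw [PMF.toMeasure_apply_singleton _ _ (measurableSet_singleton _), PMF.uniformOfFintype_apply,
      Fintype.card_fin, one_div]
  · have h1 := iIndepFun_infinitePi (P := ν) (X := fun (p : Nat.Primes) (x : Fin (p : ℕ)) => (x : ℕ))
      (fun p => measurable_of_countable _)
    convert h1 using 2 with p
    exact ha p p.2

/-- the twin pattern is admissible -/
theorem admissible_twins : Admissible {0, 2} := by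
  intro p hp
  rcases eq_or_ne p 3 with rfl | h3
  · refine ⟨2, ?_⟩
    intro h hh
    simp only [Finset.mem_insert, Finset.mem_singleton] at hh
    rcases hh with rfl | rfl <;> decide
  · refine ⟨1, ?_⟩
    intro h hh hcon
    simp only [Finset.mem_insert, Finset.mem_singleton] at hh
    have h1 : p ∣ 1 + h := (Nat.modEq_zero_iff_dvd).mp hcon
    rcases hh with rfl | rfl
    · exact hp.one_lt.ne' (Nat.dvd_one.mp (by simpa using h1))
    · exact h3 ((Nat.prime_dvd_prime_iff_eq hp Nat.prime_three).mp (by simpa using h1))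

/-- Almost surely, the limit for every nonempty admissible pattern. -/
theorem ae_patterns {Ω : Type} [MeasurableSpace Ω] (P : Measure Ω) [IsProbabilityMeasure P]
    (a : ℕ → Ω → ℕ) (h : Model P a) : ∀ᵐ ω ∂P, ∀ H : Finset ℕ, H.Nonempty → Admissible H →
      Tendsto (fun x : ℕ => (longest (RS fun p => a p ω) H x : ℝ) * Real.log (Real.log x) /
        Real.log x) atTop (𝓝 (2 / (#H : ℝ))) := by
  rw [ae_all_iff]
  intro H
  by_cases hne : H.Nonempty
  · by_cases hH : Admissible H
    · filter_upwards [ae_all_iff.mpr fun n => ae_low h H hne hH n,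
        ae_all_iff.mpr fun n => ae_up h H hne n] with ω h1 h2 _ _
      exact tendsto_of_bounds _ H hne h1 h2
    · exact Eventually.of_forall fun ω _ hcon => absurd hcon hH
  · exact Eventually.of_forall fun ω hcon => absurd hcon hne

/-- The random model exists; in it, almost surely, for every nonempty admissible pattern `H` the longest
progression of translates of `H` in the random set up to `x` has length `L_H (x)` with
`L_H (x) log log x / log x → 2 / #H`; so `L(x) log log x / log x → 1` for the progressions of twins.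
(The lengths admitted in the definition of `longest` are at most `x + 1` and include `0`, so that it is
a maximum.) -/
theorem result :
    (∃ (Ω : Type) (_ : MeasurableSpace Ω) (P : Measure Ω) (_ : IsProbabilityMeasure P)
      (a : ℕ → Ω → ℕ), Model P a) ∧
    (∀ (A : Set ℕ) (H : Finset ℕ) (x : ℕ), H.Nonempty → HasAP A H x (longest A H x) ∧
      ∀ l, HasAP A H x l → l ≤ longest A H x) ∧
    ∀ (Ω : Type) [MeasurableSpace Ω] (P : Measure Ω) [IsProbabilityMeasure P] (a : ℕ → Ω → ℕ),
      Model P a → ∀ᵐ ω ∂P,
        (∀ H : Finset ℕ, H.Nonempty → Admissible H →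
          Tendsto (fun x : ℕ => (longest (RS fun p => a p ω) H x : ℝ) * Real.log (Real.log x) /
            Real.log x) atTop (𝓝 (2 / (#H : ℝ)))) ∧
        Tendsto (fun x : ℕ => (longest (RS fun p => a p ω) {0, 2} x : ℝ) * Real.log (Real.log x) /
            Real.log x) atTop (𝓝 1) := by
  refine ⟨exists_model, fun A H x hne => ⟨hasAP_longest A H hne x, fun l hl => le_longest hne hl⟩, ?_⟩
  intro Ω _ P _ a h
  filter_upwards [ae_patterns P a h] with ω hω
  refine ⟨hω, ?_⟩
  have h1 := hω {0, 2} (by simp) admissible_twins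
  have h2 : (2 : ℝ) / (#({0, 2} : Finset ℕ) : ℝ) = 1 := by
    rw [Finset.card_pair (by norm_num)]
    norm_num
  rwa [h2] at h1

end Pool.Agent.Results.MP_a1f59e_nt.BFTPatterns
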