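import Mathlib
import Pool.Agent.H21.Diff

open Finset Filter Topology

namespace Pool.Agent.Results.MP_a1f59e_nt.Differences

/-- `a, a + b, ..., a + (l - 1) b` are first members of twin prime pairs. -/
def TwinAP (l a b : ℕ) : Prop :=
  0 < a ∧ 0 < b ∧ ∀ k < l, (a + k * b).Prime ∧ (a + k * b + 2).Prime

/-- `b` is the difference of an arithmetic progression of twin primes with `l` terms. -/
def IsDifference (l b : ℕ) : Prop := ∃ a : ℕ, TwinAP l a b

/-- `b` has no local obstruction: for every prime `p` some start `a` makes all the `2 l` numbers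
`a + k b`, `a + k b + 2` prime to `p`. -/
def Unobstructed (l b : ℕ) : Prop :=
  ∀ p : ℕ, p.Prime → ∃ a : ℕ, ∀ k < l, ¬ p ∣ a + k * b ∧ ¬ p ∣ a + k * b + 2

/-- The product of `w p / p` over the primes `p ≤ 2 l`, where `w p = 1` if `p ≤ l`
and `w p = 2 (p - l) - 1` if `l < p ≤ 2 l`. -/
noncomputable def density (l : ℕ) : ℝ :=
  ∏ p ∈ (range (2 * l + 1)).filter Nat.Prime,
    (if p ≤ l then (1 : ℝ) else 2 * ((p : ℝ) - l) - 1) / p

lemma density_eq (l : ℕ) : density l = Pool.Agent.H21.Diff.delta l := by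
  unfold density Pool.Agent.H21.Diff.delta
  apply prod_congr rfl
  intro p hp
  unfold Pool.Agent.H21.Diff.w
  split_ifs with h
  · rw [Nat.cast_one]
  · push Not at h
    rw [Nat.cast_sub (by omega), Nat.cast_mul, Nat.cast_sub h.le]
    norm_num

lemma twinAP_iff {l a b : ℕ} (hl : 3 ≤ l) : TwinAP l a b ↔ Pool.Agent.H21.Diff.AP l a b := by
  constructor
  · rintro ⟨_, h2, h3⟩
    exact ⟨h2, h3⟩
  · intro h
    have := h.start hl
    exact ⟨by omega, h.1, h.2⟩

lemma isDifference_iff {l b : ℕ} (hl : 3 ≤ l) :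
    IsDifference l b ↔ ∃ a, Pool.Agent.H21.Diff.AP l a b :=
  exists_congr fun _ => twinAP_iff hl

open Classical in
theorem result :
    (∀ l : ℕ, 3 ≤ l →
      -- which differences are locally unobstructed
      (∀ b : ℕ, Unobstructed l b ↔ ∀ p : ℕ, p.Prime → p ≤ 2 * l →
        (p ∣ b ∨ ∃ j : ℕ, 1 ≤ j ∧ j + l + 1 ≤ p ∧
          ((p : ℤ) ∣ j * b - 2 ∨ (p : ℤ) ∣ j * b + 2))) ∧
      -- their natural density
      Tendsto (fun x : ℕ => (#{b ∈ Icc 1 x | Unobstructed l b} : ℝ) / x) atTop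
        (𝓝 (density l)) ∧
      -- arithmetic progressions of twin primes with `l` terms
      (∀ a b : ℕ, TwinAP l a b →
        l + 1 ≤ a ∧ (∀ p : ℕ, p.Prime → p ≤ l → p ∣ b) ∧
        ((l + 1).Prime → (l + 1) ∣ b ∨ (a = l + 1 ∧ b % (l + 1) = 2)) ∧
        (Unobstructed l b ∨ a ≤ 2 * l)) ∧
      -- obstructed differences have density zero
      Tendsto (fun x : ℕ => (#{b ∈ Icc 1 x | IsDifference l b ∧ ¬ Unobstructed l b} : ℝ) / x)
        atTop (𝓝 0) ∧
      -- the upper density of the set of all differences is at most `density l`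
      (∀ ε : ℝ, 0 < ε → ∀ᶠ x : ℕ in atTop,
        (#{b ∈ Icc 1 x | IsDifference l b} : ℝ) / x ≤ density l + ε)) ∧
    -- size of `density l`
    Tendsto (fun l : ℕ => Real.log (density l) / l) atTop (𝓝 (-1)) := by
  refine ⟨fun l hl => ⟨?_, ?_, ?_, ?_, ?_⟩, ?_⟩
  · exact fun b => Pool.Agent.H21.Diff.unob_iff (by omega) b
  · rw [density_eq]
    exact Pool.Agent.H21.Diff.tendsto_unob (by omega)
  · intro a b h
    rw [twinAP_iff hl] at h
    refine ⟨h.start hl, fun p hp hpl => h.dvd_diff hl hp hpl, ?_, ?_⟩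
    · intro hp
      by_cases hb : (l + 1) ∣ b
      · exact Or.inl hb
      · exact Or.inr (h.succ_prime hl hp hb)
    · by_cases ha : a ≤ 2 * l
      · exact Or.inr ha
      · exact Or.inl (h.unob hl (by omega))
  · refine (Pool.Agent.H21.Diff.tendsto_bad hl).congr fun x => ?_
    have : ({b ∈ Icc 1 x | (∃ a, Pool.Agent.H21.Diff.AP l a b) ∧
        ¬ Pool.Agent.H21.Diff.Unob l b} : Finset ℕ) =
        {b ∈ Icc 1 x | IsDifference l b ∧ ¬ Unobstructed l b} := by
      ext b
      rw [mem_filter, mem_filter, isDifference_iff hl]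
      rfl
    rw [this]
  · intro ε hε
    have h := Pool.Agent.H21.Diff.upper hl ε hε
    filter_upwards [h] with x hx
    rw [density_eq]
    refine le_trans (le_of_eq ?_) hx
    have : ({b ∈ Icc 1 x | IsDifference l b} : Finset ℕ) =
        {b ∈ Icc 1 x | ∃ a, Pool.Agent.H21.Diff.AP l a b} := by
      ext b
      rw [mem_filter, mem_filter, isDifference_iff hl]
    rw [this]
  · refine Pool.Agent.H21.Diff.tendsto_log_delta.congr fun l => ?_
    rw [density_eq]

end Pool.Agent.Results.MP_a1f59e_nt.Differences
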