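import Mathlib
import Pool.Agent.H21.Basic
import Pool.Agent.H21.Good
import Pool.Agent.H21.Main
import Pool.Agent.H21.Three

/-!
Arithmetic progressions of twin primes in `K[X]`, `K` any finite field of odd characteristic `p`.
For every nonzero constant `h` (for instance `h = 2`) there are pairs `(a, b)` of polynomials of
arbitrarily large degree such that `a + k b` and `a + k b + h` are irreducible for every `k`;
the terms with `0 ≤ k < p` are pairwise distinct, which is the greatest possible length of an
arithmetic progression in characteristic `p`.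
-/

open Polynomial

namespace Pool.Agent.Results.MP_a1f59e_nt.FunctionField

open Pool.Agent.H21

/-- The case of three elements. -/
lemma three (K : Type) [Field K] [Fintype K] (hK : Fintype.card K = 3) (h : K) (hh : h ≠ 0)
    (N : ℕ) :
    ∃ a b : K[X], N < a.natDegree ∧ N < b.natDegree ∧
      ∀ k : ℕ, Irreducible (a + (k : K[X]) * b) ∧ Irreducible (a + (k : K[X]) * b + C h) := by
  have h30 : ((3 : ℕ) : K) = 0 := by
    rw [← hK]; exact FiniteField.cast_card_eq_zero K
  have hmod : ∀ k : ℕ, (k : K[X]) = ((k % 3 : ℕ) : K[X]) := by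
    intro k
    have h1 : ((3 : ℕ) : K[X]) = 0 := by
      rw [← C_eq_natCast, h30, C_0]
    conv_lhs => rw [← Nat.div_add_mod k 3]
    rw [Nat.cast_add, Nat.cast_mul, h1, zero_mul, zero_add]
  have hN : N < 11 ^ N := Nat.lt_pow_self (by norm_num)
  have h2 : h = 1 ∨ h = -1 := by
    have := FiniteField.pow_card_sub_one_eq_one h hh
    rw [hK] at this
    have h1 : (h - 1) * (h + 1) = 0 := by
      have h2 : h ^ 2 = 1 := this
      linear_combination h2
    rcases mul_eq_zero.mp h1 with h1 | h1
    · exact Or.inl (sub_eq_zero.mp h1)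
    · exact Or.inr (eq_neg_of_add_eq_zero_left h1)
  have hda : (a3 K).natDegree = 5 := by
    unfold a3; compute_degree!
  have hdb : (b3 K).natDegree = 4 := by
    unfold b3; compute_degree!
  have key : ∀ k e : ℕ, e < 2 →
      Irreducible (expand K (11 ^ N) (a3 K) + (k : K[X]) * expand K (11 ^ N) (b3 K) + (e : K[X])) := by
    intro k e he
    rw [hmod k]
    have := base3 K hK (k % 3) e (Nat.mod_lt _ (by norm_num)) he N
    rwa [map_add, map_add, map_mul, map_natCast, map_natCast] at this
  rcases h2 with h2 | h2
  · refine ⟨expand K (11 ^ N) (a3 K), expand K (11 ^ N) (b3 K), ?_, ?_, ?_⟩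
    · rw [natDegree_expand, hda]; omega
    · rw [natDegree_expand, hdb]; omega
    · intro k
      refine ⟨?_, ?_⟩
      · have := key k 0 (by norm_num)
        rwa [Nat.cast_zero, add_zero] at this
      · have := key k 1 (by norm_num)
        rwa [Nat.cast_one, ← C_1, ← h2] at this
  · refine ⟨expand K (11 ^ N) (a3 K) + 1, expand K (11 ^ N) (b3 K), ?_, ?_, ?_⟩
    · rw [← C_1, natDegree_add_C, natDegree_expand, hda]; omega
    · rw [natDegree_expand, hdb]; omega
    · intro k
      refine ⟨?_, ?_⟩
      · have := key k 1 (by norm_num)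
        rw [Nat.cast_one] at this
        convert this using 1
        ring
      · have := key k 0 (by norm_num)
        rw [Nat.cast_zero, add_zero] at this
        convert this using 1
        rw [h2, C_neg, C_1]
        ring

/-- **Progressions of twin primes of maximal length in `K[X]`.** -/
theorem result (K : Type) [Field K] [Finite K] (hK : (2 : K) ≠ 0) (h : K) (hh : h ≠ 0) (N : ℕ) :
    ∃ a b : K[X], N < a.natDegree ∧ N < b.natDegree ∧
      Set.InjOn (fun k : ℕ => a + (k : K[X]) * b) (Set.Iio (ringChar K)) ∧
      ∀ k : ℕ, Irreducible (a + (k : K[X]) * b) ∧ Irreducible (a + (k : K[X]) * b + C h) := by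
  have : Fintype K := Fintype.ofFinite K
  obtain ⟨p, hp⟩ := CharP.exists K
  have hpp : p.Prime := CharP.char_is_prime K p
  have := Fact.mk hpp
  have hp2 : p ≠ 2 := by
    rintro rfl
    apply hK
    exact_mod_cast CharP.cast_eq_zero K 2
  have hchar : ringChar K = p := ringChar.eq K p
  have main : ∃ a b : K[X], N < a.natDegree ∧ N < b.natDegree ∧
      ∀ k : ℕ, Irreducible (a + (k : K[X]) * b) ∧ Irreducible (a + (k : K[X]) * b + C h) := by
    obtain ⟨n, _, hn⟩ := FiniteField.card K p
    have h3 : 3 ≤ Fintype.card K := by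
      have h1 : p ^ 1 ≤ p ^ (n : ℕ) := Nat.pow_le_pow_right hpp.pos n.pos
      have h2 := hpp.two_le
      rw [pow_one] at h1
      omega
    rcases h3.eq_or_lt with h3 | h3
    · exact three K h3.symm h hh N
    · exact main_gt K p hp2 h3 h hh N
  obtain ⟨a, b, ha, hb, hab⟩ := main
  refine ⟨a, b, ha, hb, ?_, hab⟩
  intro i hi j hj hij
  rw [hchar, Set.mem_Iio] at hi hj
  have hb0 : b ≠ 0 := by
    rintro rfl
    rw [natDegree_zero] at hb
    omega
  have h1 : (i : K[X]) = (j : K[X]) := mul_right_cancel₀ hb0 (add_left_cancel hij)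
  rw [← C_eq_natCast, ← C_eq_natCast, C_inj] at h1
  rw [CharP.cast_eq_iff_mod_eq K p, Nat.mod_eq_of_lt hi, Nat.mod_eq_of_lt hj] at h1
  exact h1

end Pool.Agent.Results.MP_a1f59e_nt.FunctionField
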