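import Pool.Agent.H21.HawkH

/-!
# Progressions of twin primes in the Hawkins random sieve

In the Hawkins random sieve, almost surely the longest arithmetic progression of twin random primes
contained in `[0, x]` has length asymptotic to `log x / log log x`, also when the difference is
required to be divisible by a given `q` and the first term to lie in a given class modulo `q`.
-/

open MeasureTheory Filter Topology
open Pool.Agent.H21.Hawk

namespace Pool.Agent.Results.MP_a1f59e_nt.HawkinsTwins

theorem result : ∀ᵐ u ∂uniforms, ∀ q r : ℕ, 1 ≤ q →
    (∀ l : ℕ, ∃ x : ℕ, HasTwinAP (randomPrimes u) q r x l) ∧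
    Tendsto (fun x : ℕ => (longest (randomPrimes u) q r x : ℝ) /
      (Real.log x / Real.log (Real.log x))) atTop (𝓝 1) := by
  filter_upwards [main] with u hu q r hq
  exact ⟨exists_of_tendsto hq (hu q r hq), hu q r hq⟩

end Pool.Agent.Results.MP_a1f59e_nt.HawkinsTwins
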